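import Pool.Agent.H8.DFL.Ms
import Pool.Agent.H71.PF.Defs

/-!
# One unary function symbol and unary relation symbols: the spectra are eventually periodic
-/

set_option autoImplicit false

namespace Pool.Agent.H8.DFL

open Pool.Agent.H69.VR Pool.Agent.H71.PF
open Pool.Agent.H8.MC (BinZero)

/-- the number of function symbols of a term -/
def dep : Tm → ℕ
  | .var _ => 0
  | @Tm.app _ 0 _ => 0
  | @Tm.app _ (_ + 1) ts => dep (ts 0) + 1

/-- the variable of a term -/
def vr : Tm → ℕ
  | .var x => x
  | @Tm.app _ 0 _ => 0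
  | @Tm.app _ (_ + 1) ts => vr (ts 0)

theorem val_iter {α : Type} (F : ℕ → ℕ → Prop) (i : ℕ) (hF : ∀ j k, F j k → j = i ∧ k = 1)
    (f : ℕ → List α → α) (v : ℕ → α) (t : Tm) (h : t.Voc F) :
      t.val f v = (fun a => f i [a])^[dep t] (v (vr t)) := by
  induction t with
  | var x => rfl
  | @app j k ts ih =>
      obtain ⟨h1, h2⟩ := hF j k h.1
      subst h2
      have h3 := ih 0 (h.2 0)
      change f j (List.ofFn fun l => (ts l).val f v) = _
      rw [show dep (Tm.app j ts) = dep (ts 0) + 1 from rfl, show vr (Tm.app j ts) = vr (ts 0) from rfl,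
        Function.iterate_succ_apply', ← h3, h1]
      simp

theorem vr_lt (F : ℕ → ℕ → Prop) (i : ℕ) (hF : ∀ j k, F j k → j = i ∧ k = 1) (m : ℕ) (t : Tm)
    (h : t.Voc F) (h' : t.Vars m) : vr t < m := by
  induction t with
  | var x => exact h'
  | @app j k ts ih =>
      obtain ⟨h1, h2⟩ := hF j k h.1
      subst h2
      exact ih 0 (h.2 0) (h' 0)

/-- the variable `z` is the `k`-th iterate of the variable `x` -/
def It : ℕ → ℕ → ℕ → MS
  | 0, x, z => .eq x z
  | k + 1, x, z => .ex (z + 1) (.and (It k x (z + 1)) (.bi 0 (z + 1) z))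

theorem it_sat {α : Type} (P : ℕ → α → Prop) (f : α → α) (V : ℕ → Set α) :
    ∀ (k x z : ℕ) (e : ℕ → α), x < z →
      ((It k x z).Sat P (fun _ x y => f x = y) e V ↔ f^[k] (e x) = e z)
  | 0, _, _, _, _ => Iff.rfl
  | k + 1, x, z, e, h => by
      change (∃ a : α, (It k x (z + 1)).Sat P (fun _ x y => f x = y) (Function.update e (z + 1) a) V ∧
        f (Function.update e (z + 1) a (z + 1)) = Function.update e (z + 1) a z) ↔ _
      have h1 : ∀ a : α, (It k x (z + 1)).Sat P (fun _ x y => f x = y)
          (Function.update e (z + 1) a) V ↔ f^[k] (e x) = a := by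
        intro a
        rw [it_sat P f V k x (z + 1) (Function.update e (z + 1) a) (by omega),
          Function.update_self, Function.update_of_ne (by omega)]
      rw [Function.iterate_succ_apply']
      constructor
      · rintro ⟨a, h2, h3⟩
        rw [Function.update_self, Function.update_of_ne (by omega)] at h3
        rw [(h1 a).1 h2, h3]
      · intro h2
        refine ⟨f^[k] (e x), (h1 _).2 rfl, ?_⟩
        rw [Function.update_self, Function.update_of_ne (by omega)]
        exact h2

theorem it_bz : ∀ k x z : ℕ, BinZero (It k x z)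
  | 0, _, _ => trivial
  | k + 1, x, z => ⟨it_bz k x (z + 1), rfl⟩

/-- the translation of a quantifier-free formula -/
def tr (m : ℕ) : QF → MS
  | .rel _ [] => .eq 0 0
  | .rel j (t :: _) => .ex m (.and (It (dep t) (vr t) m) (.un j m))
  | .eq s t => .ex m (.and (It (dep s) (vr s) m) (It (dep t) (vr t) m))
  | .neg φ => .neg (tr m φ)
  | .and φ ψ => .and (tr m φ) (tr m ψ)

theorem tr_bz (m : ℕ) : ∀ φ : QF, BinZero (tr m φ)
  | .rel _ [] => trivial
  | .rel _ (_ :: _) => ⟨it_bz _ _ _, trivial⟩
  | .eq _ _ => ⟨it_bz _ _ _, it_bz _ _ _⟩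
  | .neg φ => tr_bz m φ
  | .and φ ψ => ⟨tr_bz m φ, tr_bz m ψ⟩

theorem tr_sat {α : Type} (F : ℕ → ℕ → Prop) (i : ℕ) (hF : ∀ j k, F j k → j = i ∧ k = 1) (m : ℕ)
    (f : ℕ → List α → α) (R : ℕ → List α → Prop) (e : ℕ → α) (V : ℕ → Set α) :
    ∀ φ : QF, φ.Voc F 1 → φ.Vars m →
      ((tr m φ).Sat (fun j a => R j [a]) (fun _ x y => f i [x] = y) e V ↔ φ.Sat f R e)
  | .rel j [], h, _ => absurd h.1 (by simp)
  | .rel j (t :: s :: l), h, _ => absurd h.2.1 (by simp)
  | .rel j [t], h, h' => by
      have ht := h.2.2 t (by simp)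
      have hv := vr_lt F i hF m t ht (h' t (by simp))
      change (∃ a : α, (It (dep t) (vr t) m).Sat (fun j a => R j [a]) (fun _ x y => f i [x] = y)
        (Function.update e m a) V ∧ R j [Function.update e m a m]) ↔ R j [t.val f e]
      rw [val_iter F i hF f e t ht]
      have h1 : ∀ a : α, (It (dep t) (vr t) m).Sat (fun j a => R j [a]) (fun _ x y => f i [x] = y)
          (Function.update e m a) V ↔ (fun a => f i [a])^[dep t] (e (vr t)) = a := by
        intro a
        rw [it_sat _ (fun a => f i [a]) V _ _ _ _ hv, Function.update_self,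
          Function.update_of_ne (by omega)]
      constructor
      · rintro ⟨a, h2, h3⟩
        rw [Function.update_self] at h3
        rw [(h1 a).1 h2]
        exact h3
      · intro h2
        refine ⟨_, (h1 _).2 rfl, ?_⟩
        rw [Function.update_self]
        exact h2
  | .eq s t, h, h' => by
      have hs := vr_lt F i hF m s h.1 h'.1
      have ht := vr_lt F i hF m t h.2 h'.2
      change (∃ a : α, (It (dep s) (vr s) m).Sat (fun j a => R j [a]) (fun _ x y => f i [x] = y)
        (Function.update e m a) V ∧ (It (dep t) (vr t) m).Sat (fun j a => R j [a])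
          (fun _ x y => f i [x] = y) (Function.update e m a) V) ↔ s.val f e = t.val f e
      rw [val_iter F i hF f e t h.2, val_iter F i hF f e s h.1]
      have h1 : ∀ (t : Tm) (_ : vr t < m) (a : α),
          (It (dep t) (vr t) m).Sat (fun j a => R j [a]) (fun _ x y => f i [x] = y)
          (Function.update e m a) V ↔ (fun a => f i [a])^[dep t] (e (vr t)) = a := by
        intro t ht a
        rw [it_sat _ (fun a => f i [a]) V _ _ _ _ ht, Function.update_self,
          Function.update_of_ne (by omega)]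
      constructor
      · rintro ⟨a, h2, h3⟩
        rw [(h1 s hs a).1 h2, (h1 t ht a).1 h3]
      · intro h2
        exact ⟨_, (h1 s hs _).2 h2, (h1 t ht _).2 rfl⟩
  | .neg φ, h, h' => not_congr (tr_sat F i hF m f R e V φ h h')
  | .and φ ψ, h, h' => and_congr (tr_sat F i hF m f R e V φ h.1 h'.1)
      (tr_sat F i hF m f R e V ψ h.2 h'.2)

/-- the translation of a prefix -/
def pre (χ : MS) : List Bool → ℕ → MS
  | [], _ => χ
  | true :: π, k => .neg (.ex k (.neg (pre χ π (k + 1))))
  | false :: π, k => .ex k (pre χ π (k + 1))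

theorem pre_bz (χ : MS) (h : BinZero χ) : ∀ (π : List Bool) (k : ℕ), BinZero (pre χ π k)
  | [], _ => h
  | true :: π, k => pre_bz χ h π (k + 1)
  | false :: π, k => pre_bz χ h π (k + 1)

theorem pre_sat {α : Type} (f : ℕ → List α → α) (R : ℕ → List α → Prop) (P : ℕ → α → Prop)
    (g : α → α) (V : ℕ → Set α) (φ : QF) (χ : MS)
    (h : ∀ e, χ.Sat P (fun _ x y => g x = y) e V ↔ φ.Sat f R e) :
    ∀ (π : List Bool) (k : ℕ) (e : ℕ → α),
      (pre χ π k).Sat P (fun _ x y => g x = y) e V ↔ Pre f R φ π k e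
  | [], _, e => h e
  | true :: π, k, e => by
      change (¬ ∃ a : α, ¬ (pre χ π (k + 1)).Sat P (fun _ x y => g x = y) (Function.update e k a) V) ↔
        ∀ a, Pre f R φ π (k + 1) (Function.update e k a)
      rw [not_exists_not]
      exact forall_congr' fun a => pre_sat f R P g V φ χ h π (k + 1) _
  | false :: π, k, e => exists_congr fun a => pre_sat f R P g V φ χ h π (k + 1) _

/-- **One unary function symbol and unary relation symbols**: the spectra are eventually periodic. -/
theorem pf_DF : ∀ (π : List Bool) (F : ℕ → ℕ → Prop) (φ : QF), Few F → φ.Vars π.length →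
    φ.Voc F 1 → Periodic (Spec π φ) := by
  rintro π F φ ⟨i, hF⟩ h1 h2
  have h := fun_per (pre (tr π.length φ) π 0) (pre_bz _ (tr_bz _ _) π 0)
  have e : Spec π φ = {n | 0 < n ∧ ∃ (P : ℕ → Fin n → Prop) (f : Fin n → Fin n),
      ∀ (e : ℕ → Fin n) (V : ℕ → Set (Fin n)),
        (pre (tr π.length φ) π 0).Sat P (fun _ x y => f x = y) e V} := by
    ext n
    refine and_congr_right fun hn => ?_
    constructor
    · rintro ⟨f, R, h3⟩
      refine ⟨fun j a => R j [a], fun a => f i [a], fun e V => ?_⟩
      exact (pre_sat f R _ _ V φ _ (fun e => tr_sat F i hF π.length f R e V φ h2 h1) π 0 e).2 (h3 e)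
    · rintro ⟨P, g, h3⟩
      let f : ℕ → List (Fin n) → Fin n := fun _ l => g (l.headD ⟨0, hn⟩)
      let R : ℕ → List (Fin n) → Prop := fun j l => P j (l.headD ⟨0, hn⟩)
      have h4 : ∀ e V, (pre (tr π.length φ) π 0).Sat P (fun _ x y => g x = y) e V ↔
          Pre f R φ π 0 e := fun e V =>
        pre_sat f R P g V φ _ (fun e => tr_sat F i hF π.length f R e V φ h2 h1) π 0 e
      exact ⟨f, R, fun v => (h4 v (fun _ => ∅)).1 (h3 v _)⟩
  rw [e]
  exact h

end Pool.Agent.H8.DFL
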