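import Pool.Agent.H8.VR.Cor

/-!
# The graph of a function has NLC-width at most four
-/

set_option autoImplicit false

namespace Pool.Agent.H8.DFL

open Pool.Agent.H8.VR Classical

/-- the colour of two truth values -/
noncomputable def en (p q : Prop) : Fin 4 := if p then (if q then 3 else 2) else (if q then 1 else 0)

/-- the first truth value -/
def d1 (x : Fin 4) : Prop := x = 2 ∨ x = 3

/-- the second truth value -/
def d2 (x : Fin 4) : Prop := x = 1 ∨ x = 3

theorem d1_en (p q : Prop) : d1 (en p q) ↔ p := by
  unfold d1 en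
  by_cases hp : p <;> by_cases hq : q <;> simp [hp, hq]

theorem d2_en (p q : Prop) : d2 (en p q) ↔ q := by
  unfold d2 en
  by_cases hp : p <;> by_cases hq : q <;> simp [hp, hq]

theorem en_congr {p q p' q' : Prop} (h1 : p ↔ p') (h2 : q ↔ q') : en p q = en p' q' := by
  rw [propext h1, propext h2]

section

variable {A : Type} [Finite A] (f : A → A) (m : ℕ)

/-- the graph of the function -/
def gr : ℕ → A → A → Prop := fun _ x y => f x = y

/-- forests -/
theorem forest (s : A) : ∀ (n : ℕ) (X : Set A), X.ncard = n → X.Nonempty →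
    (∀ x ∈ X, ∃ j, f^[j] x ∉ X) → NLC 4 m (gr f) X (fun x => en (f x ∉ X) (x = s)) := by
  intro n
  induction n using Nat.strong_induction_on with
  | _ n ih =>
  intro X hn hX hac
  -- a root
  obtain ⟨r, hr, hfr⟩ : ∃ r ∈ X, f r ∉ X := by
    obtain ⟨x, hx⟩ := hX
    have h1 := hac x hx
    have h0 : Nat.find h1 ≠ 0 := by
      intro h
      have := Nat.find_spec h1
      rw [h] at this
      exact this hx
    obtain ⟨k, hk⟩ := Nat.exists_eq_succ_of_ne_zero h0
    refine ⟨f^[k] x, ?_, ?_⟩
    · have := Nat.find_min h1 (m := k) (by omega)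
      exact not_not.1 this
    · have := Nat.find_spec h1
      rw [hk, Function.iterate_succ_apply'] at this
      exact this
  -- the tree of the root
  set Y : Set A := {y | y ∈ X ∧ ∃ j, f^[j] y = r ∧ ∀ i < j, f^[i] y ∈ X} with hY
  have hYX : Y ⊆ X := fun y hy => hy.1
  have hrY : r ∈ Y := ⟨hr, 0, rfl, fun i hi => absurd hi (Nat.not_lt_zero i)⟩
  have hback : ∀ z ∈ X, f z ∈ Y → z ∈ Y := by
    rintro z hz ⟨h1, j, h2, h3⟩
    refine ⟨hz, j + 1, ?_, fun i hi => ?_⟩
    · rw [Function.iterate_succ_apply]
      exact h2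
    · cases i with
      | zero => exact hz
      | succ i =>
        rw [Function.iterate_succ_apply]
        exact h3 i (by omega)
  have hfwd : ∀ y ∈ Y, y ≠ r → f y ∈ Y := by
    rintro y ⟨h1, j, h2, h3⟩ hne
    cases j with
    | zero => exact absurd h2 hne
    | succ j =>
      rw [Function.iterate_succ_apply] at h2
      have h4 : f y ∈ X := by
        cases j with
        | zero =>
          have h5 : f y = r := h2
          rw [h5]
          exact hr
        | succ j => exact h3 1 (by omega)
      refine ⟨h4, j, h2, fun i hi => ?_⟩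
      have := h3 (i + 1) (by omega)
      rw [Function.iterate_succ_apply] at this
      exact this
  by_cases hZ : (X \ Y).Nonempty
  · -- the tree and the rest
    have hac' : ∀ W : Set A, W ⊆ X → ∀ x ∈ W, ∃ j, f^[j] x ∉ W := fun W hW x hx => by
      obtain ⟨j, hj⟩ := hac x (hW hx)
      exact ⟨j, fun h => hj (hW h)⟩
    have c1 : Y.ncard < n := by
      rw [← hn]
      obtain ⟨z, hz⟩ := hZ
      exact Set.ncard_lt_ncard ⟨hYX, fun h => hz.2 (h hz.1)⟩ X.toFinite
    have c2 : (X \ Y).ncard < n := by
      rw [← hn]
      exact Set.ncard_lt_ncard ⟨Set.sdiff_subset, fun h => (h hr).2 hrY⟩ X.toFinite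
    have g1 := ih _ c1 Y rfl ⟨r, hrY⟩ (hac' Y hYX)
    have g2 := ih _ c2 (X \ Y) rfl hZ (hac' _ Set.sdiff_subset)
    have e : Y ∪ (X \ Y) = X := Set.union_sdiff_cancel hYX
    have := NLC.op (k := 4) (m := m) (R := gr f) Y (X \ Y) (fun x => en (f x ∉ X) (x = s)) _ _ g1 g2
      Set.disjoint_sdiff_right (fun _ _ _ => False) (fun _ _ _ => False) id id ?_ ?_ ?_
    · rwa [e] at this
    · intro a ha b hb i _
      refine ⟨⟨fun h => ?_, False.elim⟩, ⟨fun h => ?_, False.elim⟩⟩
      · have h1 : f a = b := h
        by_cases h2 : a = r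
        · rw [h2] at h1
          rw [h1] at hfr
          exact hfr hb.1
        · have h3 := hfwd a ha h2
          rw [h1] at h3
          exact hb.2 h3
      · have h1 : f b = a := h
        exact hb.2 (hback b hb.1 (by rw [h1]; exact ha))
    · intro a ha
      refine en_congr ?_ Iff.rfl
      constructor
      · exact fun h h' => h (hYX h')
      · intro h h'
        by_cases h2 : a = r
        · rw [h2] at h'
          exact hfr h'
        · exact h (hfwd a ha h2)
    · intro b hb
      refine en_congr ?_ Iff.rfl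
      constructor
      · exact fun h h' => h h'.1
      · exact fun h h' => h ⟨h', fun h'' => hb.2 (hback b hb.1 h'')⟩
  · -- one tree
    have hXY : ∀ x ∈ X, x ∈ Y := by
      intro x hx
      by_contra h
      exact hZ ⟨x, hx, h⟩
    by_cases hW : (X \ {r}).Nonempty
    · have c1 : (X \ {r}).ncard < n := by
        rw [← hn]
        exact Set.ncard_lt_ncard ⟨Set.sdiff_subset, fun h => (h hr).2 rfl⟩ X.toFinite
      have g1 := ih _ c1 (X \ {r}) rfl hW (fun x hx => by
        obtain ⟨j, hj⟩ := hac x hx.1
        exact ⟨j, fun h => hj h.1⟩)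
      have g0 : NLC 4 m (gr f) {r} (fun x => en (f x ∉ X) (x = s)) := NLC.pt r _
      have e : {r} ∪ (X \ {r}) = X := Set.union_sdiff_cancel (Set.singleton_subset_iff.2 hr)
      have := NLC.op (k := 4) (m := m) (R := gr f) {r} (X \ {r}) (fun x => en (f x ∉ X) (x = s)) _ _
        g0 g1 Set.disjoint_sdiff_right (fun _ _ _ => False) (fun _ _ q => d1 q) id
        (fun q => en False (d2 q)) ?_ ?_ ?_
      · rwa [e] at this
      · intro a ha b hb i _
        have ha' : a = r := ha
        subst ha'
        refine ⟨⟨fun h => ?_, False.elim⟩, ?_⟩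
        · have h1 : f a = b := h
          rw [h1] at hfr
          exact hfr hb.1
        · rw [d1_en]
          constructor
          · intro h h'
            have h1 : f b = a := h
            exact h'.2 h1
          · intro h
            have h1 := hfwd b (hXY b hb.1) hb.2
            by_contra h2
            exact h ⟨hYX h1, h2⟩
      · intro a _
        rfl
      · intro b hb
        refine en_congr ?_ (d2_en _ _).symm
        constructor
        · intro h
          exact h (hYX (hfwd b (hXY b hb.1) hb.2))
        · exact False.elim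
    · have e : X = {r} := by
        apply Set.eq_singleton_iff_unique_mem.2 ⟨hr, fun x hx => ?_⟩
        by_contra h
        exact hW ⟨x, hx, h⟩
      have g0 : NLC 4 m (gr f) {r} (fun x => en (f x ∉ X) (x = s)) := NLC.pt r _
      rw [← e] at g0
      exact g0

/-- closed sets -/
theorem closed : ∀ (n : ℕ) (X : Set A), X.ncard = n → X.Nonempty → (∀ x ∈ X, f x ∈ X) →
    NLC 4 m (gr f) X (fun _ => 0) := by
  intro n
  induction n using Nat.strong_induction_on with
  | _ n ih =>
  intro X hn hX hcl
  -- a periodic point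
  obtain ⟨r, hr, p, hp, hper⟩ : ∃ r ∈ X, ∃ p, 0 < p ∧ f^[p] r = r := by
    obtain ⟨x, hx⟩ := hX
    have h1 : ∀ i, f^[i] x ∈ X := by
      intro i
      induction i with
      | zero => exact hx
      | succ i hi =>
        rw [Function.iterate_succ_apply']
        exact hcl _ hi
    obtain ⟨i, j, hij, he⟩ := Finite.exists_ne_map_eq_of_infinite (fun i : ℕ => f^[i] x)
    wlog hlt : i < j generalizing i j
    · exact this j i hij.symm he.symm (lt_of_le_of_ne (not_lt.1 hlt) hij.symm)
    refine ⟨f^[i] x, h1 i, j - i, by omega, ?_⟩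
    rw [← Function.iterate_add_apply]
    have h2 : j - i + i = j := by omega
    rw [h2]
    exact he.symm
  set Y : Set A := {y | y ∈ X ∧ ∃ j, f^[j] y = r} with hY
  have hYX : Y ⊆ X := fun y hy => hy.1
  have hrY : r ∈ Y := ⟨hr, 0, rfl⟩
  have hback : ∀ z ∈ X, f z ∈ Y → z ∈ Y := by
    rintro z hz ⟨-, j, h2⟩
    refine ⟨hz, j + 1, ?_⟩
    rw [Function.iterate_succ_apply]
    exact h2
  have hfwd : ∀ y ∈ Y, f y ∈ Y := by
    rintro y ⟨h1, j, h2⟩
    refine ⟨hcl y h1, ?_⟩
    cases j with
    | zero =>
      have h3 : y = r := h2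
      subst h3
      refine ⟨p - 1, ?_⟩
      rw [← Function.iterate_succ_apply]
      have h4 : (p - 1).succ = p := by omega
      rw [h4]
      exact hper
    | succ j =>
      rw [Function.iterate_succ_apply] at h2
      exact ⟨j, h2⟩
  -- the component
  have gY : NLC 4 m (gr f) Y (fun _ => 0) := by
    by_cases hW : (Y \ {r}).Nonempty
    · have g1 := forest f m (f r) _ (Y \ {r}) rfl hW (fun x hx => by
        obtain ⟨j, hj⟩ := hx.1.2
        refine ⟨j, fun h => h.2 hj⟩)
      have g0 : NLC 4 m (gr f) {r} (fun _ => 0) := NLC.pt r _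
      have e : {r} ∪ (Y \ {r}) = Y := Set.union_sdiff_cancel (Set.singleton_subset_iff.2 hrY)
      have := NLC.op (k := 4) (m := m) (R := gr f) {r} (Y \ {r}) (fun _ => 0) _ _
        g0 g1 Set.disjoint_sdiff_right (fun _ _ q => d2 q) (fun _ _ q => d1 q) id
        (fun _ => 0) ?_ ?_ ?_
      · rwa [e] at this
      · intro a ha b hb i _
        have ha' : a = r := ha
        subst ha'
        refine ⟨?_, ?_⟩
        · rw [d2_en]
          exact eq_comm
        · rw [d1_en]
          constructor
          · intro h h'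
            have h1 : f b = a := h
            exact h'.2 h1
          · intro h
            by_contra h2
            exact h ⟨hfwd b hb.1, h2⟩
      · intro a _
        rfl
      · intro b _
        rfl
    · have e : Y = {r} := by
        apply Set.eq_singleton_iff_unique_mem.2 ⟨hrY, fun x hx => ?_⟩
        by_contra h
        exact hW ⟨x, hx, h⟩
      rw [e]
      exact NLC.pt r _
  by_cases hZ : (X \ Y).Nonempty
  · have c2 : (X \ Y).ncard < n := by
      rw [← hn]
      exact Set.ncard_lt_ncard ⟨Set.sdiff_subset, fun h => (h hr).2 hrY⟩ X.toFinite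
    have g2 := ih _ c2 (X \ Y) rfl hZ (fun x hx => ⟨hcl x hx.1, fun h => hx.2 (hback x hx.1 h)⟩)
    have e : Y ∪ (X \ Y) = X := Set.union_sdiff_cancel hYX
    have := NLC.op (k := 4) (m := m) (R := gr f) Y (X \ Y) (fun _ => 0) _ _ gY g2
      Set.disjoint_sdiff_right (fun _ _ _ => False) (fun _ _ _ => False) id id ?_ ?_ ?_
    · rwa [e] at this
    · intro a ha b hb i _
      refine ⟨⟨fun h => ?_, False.elim⟩, ⟨fun h => ?_, False.elim⟩⟩
      · have h1 : f a = b := h
        have h3 := hfwd a ha
        rw [h1] at h3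
        exact hb.2 h3
      · have h1 : f b = a := h
        exact hb.2 (hback b hb.1 (by rw [h1]; exact ha))
    · intro a _
      rfl
    · intro b _
      rfl
  · have e : X = Y := by
      refine Set.Subset.antisymm (fun x hx => ?_) hYX
      by_contra h
      exact hZ ⟨x, hx, h⟩
    rw [e]
    exact gY

/-- the graph of a function -/
theorem nlc_fun [Nonempty A] : ∃ c, NLC 4 m (gr f) Set.univ c :=
  ⟨_, closed f m _ Set.univ rfl Set.univ_nonempty fun _ _ => trivial⟩

end

end Pool.Agent.H8.DFL
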