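import Pool.Agent.H8.DFL.Fn
import Pool.Agent.H8.MP.Per
import Pool.Agent.H8.MC.Defs

/-!
# Counting monadic second-order logic with one function: the spectra are eventually periodic
-/

set_option autoImplicit false

namespace Pool.Agent.H8.DFL

open Pool.Agent.H69.Sp Pool.Agent.H69.VR Pool.Agent.H8.VR
open Pool.Agent.H8.MC (BinZero)
open Pool.Agent.H8.MP (EvPer gram_per)

/-- a grammar and a formula of monadic second-order logic -/
theorem specM_per (N Q : Type) [Finite N] [Finite Q] (G : Gram N Q)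
    (hG : ∀ o ∈ G.ops, o.D = {n | 0 < n}) (m : ℕ) (s₀ : N) (Ψ : MS) (hΨ : Ψ.Below m) (φ : C2)
    (hφ : ∀ (A : Type) (P : ℕ → A → Prop) (R : ℕ → A → A → Prop) (v : Bool → A), φ.Sat P R v) :
    EvPer (specM G m s₀ Ψ φ) := by
  rw [specM_eq N Q G m s₀ Ψ hΨ φ]
  have := MS.finT Q (Ψ.clo Ψ.vb)
  have h := gram_per (ext G s₀ (Ψ.clo Ψ.vb)) (fun o ho => by
    obtain ⟨o', ho', a, b, -, -, -, -, -, -, k, -⟩ := mem_ops.1 ho
    rw [k]
    exact hG o' ho') m none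
  have e : specG (ext G s₀ (Ψ.clo Ψ.vb)) m none φ =
      {n | 0 < n ∧ ∃ (P : ℕ → Fin n → Prop) (R : ℕ → Fin n → Fin n → Prop),
        ∃ c, (ext G s₀ (Ψ.clo Ψ.vb)).Gen m P R none Set.univ c} := by
    ext n
    refine and_congr_right fun _ => exists_congr fun P => exists_congr fun R => ?_
    exact ⟨fun h => h.1, fun h => ⟨h, fun v => hφ _ P R v⟩⟩
  rw [e]
  exact h

theorem below_mono {m m' : ℕ} (h : m ≤ m') : ∀ Ψ : MS, Ψ.Below m → Ψ.Below m'
  | .un _ _, h1 => lt_of_lt_of_le h1 h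
  | .bi _ _ _, h1 => lt_of_lt_of_le h1 h
  | .eq _ _, _ => trivial
  | .mem _ _, _ => trivial
  | .mod _ _ _, _ => trivial
  | .neg φ, h1 => below_mono h φ h1
  | .and φ ψ, h1 => ⟨below_mono h φ h1.1, below_mono h ψ h1.2⟩
  | .ex _ φ, h1 => below_mono h φ h1
  | .exS _ φ, h1 => below_mono h φ h1

theorem ex_below : ∀ Ψ : MS, ∃ m, Ψ.Below m
  | .un i _ => ⟨i + 1, Nat.lt_succ_self i⟩
  | .bi i _ _ => ⟨i + 1, Nat.lt_succ_self i⟩
  | .eq _ _ => ⟨0, trivial⟩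
  | .mem _ _ => ⟨0, trivial⟩
  | .mod _ _ _ => ⟨0, trivial⟩
  | .neg φ => ex_below φ
  | .and φ ψ => by
      obtain ⟨m, hm⟩ := ex_below φ
      obtain ⟨m', hm'⟩ := ex_below ψ
      exact ⟨max m m', below_mono (le_max_left _ _) φ hm, below_mono (le_max_right _ _) ψ hm'⟩
  | .ex _ φ => ex_below φ
  | .exS _ φ => ex_below φ

/-- only the first binary relation matters -/
theorem bz_congr {A : Type} {P : ℕ → A → Prop} {R R' : ℕ → A → A → Prop} (h : R 0 = R' 0) :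
    ∀ (Ψ : MS), BinZero Ψ → ∀ (e : ℕ → A) (V : ℕ → Set A), Ψ.Sat P R e V ↔ Ψ.Sat P R' e V
  | .un _ _, _, _, _ => Iff.rfl
  | .bi i x y, hz, e, V => by
      have h0 : i = 0 := hz
      subst h0
      change R 0 (e x) (e y) ↔ R' 0 (e x) (e y)
      rw [h]
  | .eq _ _, _, _, _ => Iff.rfl
  | .mem _ _, _, _, _ => Iff.rfl
  | .mod _ _ _, _, _, _ => Iff.rfl
  | .neg φ, hz, e, V => not_congr (bz_congr h φ hz e V)
  | .and φ ψ, hz, e, V => and_congr (bz_congr h φ hz.1 e V) (bz_congr h ψ hz.2 e V)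
  | .ex _ φ, hz, _, V => exists_congr fun _ => bz_congr h φ hz _ V
  | .exS _ φ, hz, e, _ => exists_congr fun _ => bz_congr h φ hz e _

/-- the relation is the graph of a function -/
def fnc : MS :=
  .and (.neg (.ex 0 (.neg (.ex 1 (.bi 0 0 1)))))
    (.neg (.ex 0 (.ex 1 (.ex 2 (.and (.and (.bi 0 0 1) (.bi 0 0 2)) (.neg (.eq 1 2)))))))

theorem sat_fnc {A : Type} (P : ℕ → A → Prop) (R : ℕ → A → A → Prop) (e : ℕ → A)
    (V : ℕ → Set A) : fnc.Sat P R e V ↔ ∃ f : A → A, ∀ x y, R 0 x y ↔ f x = y := by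
  have h1 : fnc.Sat P R e V ↔ (∀ x, ∃ y, R 0 x y) ∧ ∀ x y z, R 0 x y → R 0 x z → y = z := by
    simp only [fnc, MS.Sat]
    simp only [Function.update_self, ne_eq, not_false_eq_true, Function.update_of_ne,
      OfNat.zero_ne_ofNat, zero_ne_one, OfNat.one_ne_ofNat]
    push Not
    refine and_congr_right fun _ => ?_
    constructor
    · intro h x y z h2 h3
      exact h x y z ⟨h2, h3⟩
    · rintro h x y z ⟨h2, h3⟩
      exact h x y z h2 h3
  rw [h1]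
  constructor
  · rintro ⟨h2, h3⟩
    choose f hf using h2
    exact ⟨f, fun x y => ⟨fun h => h3 x (f x) y (hf x) h, fun h => h ▸ hf x⟩⟩
  · rintro ⟨f, hf⟩
    exact ⟨fun x => ⟨f x, (hf x _).2 rfl⟩, fun x y z h2 h3 => by
      rw [← (hf x y).1 h2, ← (hf x z).1 h3]⟩

/-- **One function, counting monadic second-order logic.** -/
theorem fun_per (Ψ : MS) (hΨ : BinZero Ψ) :
    EvPer {n | 0 < n ∧ ∃ (P : ℕ → Fin n → Prop) (f : Fin n → Fin n),
      ∀ (e : ℕ → Fin n) (V : ℕ → Set (Fin n)), Ψ.Sat P (fun _ x y => f x = y) e V} := by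
  obtain ⟨m, hm⟩ := ex_below Ψ
  have hm' : Ψ.Below (m + 1) := below_mono (Nat.le_succ m) Ψ hm
  have hf : (MS.and Ψ fnc).Below (m + 1) :=
    ⟨hm', ⟨Nat.succ_pos m, ⟨Nat.succ_pos m, Nat.succ_pos m⟩, trivial⟩⟩
  have h := specM_per Unit (Fin 4) (cwG 4 (m + 1)) (fun o ho => by
    obtain ⟨x, -, rfl⟩ := List.mem_map.1 ho
    rfl) (m + 1) () (.and Ψ fnc) hf (C2.eq true true) (fun A P R v => rfl)
  rw [← specWM_eq] at h
  have e : specWM 4 (m + 1) (.and Ψ fnc) (C2.eq true true) =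
      {n | 0 < n ∧ ∃ (P : ℕ → Fin n → Prop) (f : Fin n → Fin n),
        ∀ (e : ℕ → Fin n) (V : ℕ → Set (Fin n)), Ψ.Sat P (fun _ x y => f x = y) e V} := by
    ext n
    refine and_congr_right fun hn => exists_congr fun P => ?_
    have hne : Nonempty (Fin n) := ⟨⟨0, hn⟩⟩
    constructor
    · rintro ⟨R, -, h1, -⟩
      obtain ⟨f, hf⟩ := (sat_fnc P R (fun _ => ⟨0, hn⟩) (fun _ => ∅)).1 (h1 _ _).2
      refine ⟨f, fun e V => ?_⟩
      refine (bz_congr (R := R) (R' := fun _ x y => f x = y) ?_ Ψ hΨ e V).1 (h1 e V).1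
      funext x y
      exact propext (hf x y)
    · rintro ⟨f, h1⟩
      refine ⟨gr f, nlc_fun f (m + 1), fun e V => ⟨h1 e V, ?_⟩, fun v => rfl⟩
      exact (sat_fnc P (gr f) e V).2 ⟨f, fun x y => Iff.rfl⟩
  rw [← e]
  exact h

end Pool.Agent.H8.DFL
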